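import Pool.Agent.H73.MB.Cert

/-!
# Dominator wins the gadget with the port dominated
-/

set_option autoImplicit false
set_option maxRecDepth 100000

namespace Pool.Agent.H73.MB

open Pool.Agent.Helper87.MB

/-- the strategy of Dominator in the gadget -/
def certC1 : Cert (Fin 14) :=
(.mv 0 2 (.pr [(7, 10), (4, 8), (5, 13), (1, 11), (3, 12)])
  (.mv 1 2 (.mv 0 3 (.pr [(5, 13), (7, 10), (11, 12), (4, 8)])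
  (.mv 3 0 (.pr [(4, 12), (11, 13), (6, 9), (5, 8)])
  (.mv 4 8 (.pr [(3, 12), (11, 13), (0, 5), (7, 10)])
  (.mv 5 8 (.pr [(0, 13), (11, 12), (3, 4), (6, 9)])
  (.mv 6 0 (.pr [(11, 13), (5, 8), (4, 12), (3, 9)])
  (.mv 7 0 (.pr [(11, 13), (5, 8), (4, 12), (3, 6)])
  (.mv 8 4 (.pr [(5, 13), (11, 12), (0, 7), (3, 6)])
  (.mv 9 0 (.pr [(11, 13), (5, 8), (4, 12), (3, 6)])
  (.mv 10 0 (.pr [(11, 13), (5, 8), (4, 12), (3, 6)])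
  (.mv 11 8 (.pr [(12, 13), (3, 4), (6, 9), (0, 5), (7, 10)])
  (.mv 12 8 (.pr [(11, 13), (3, 4), (6, 9), (0, 5), (7, 10)])
  (.mv 13 8 (.pr [(11, 12), (3, 4), (6, 9), (0, 5), (7, 10)])
  .nil))))))))))))
  (.mv 2 0 (.pr [(3, 6), (1, 11), (7, 10), (4, 12), (5, 8)])
  (.mv 3 2 (.pr [(6, 9), (4, 8), (5, 13), (1, 12), (0, 7)])
  (.mv 4 12 (.mv 0 2 (.pr [(5, 8), (1, 13), (7, 10)])
  (.mv 1 0 (.pr [(5, 8), (2, 11), (3, 6)])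
  (.mv 2 0 (.pr [(3, 6), (5, 8), (1, 11), (7, 10)])
  (.mv 3 0 (.pr [(2, 6), (5, 8), (1, 11)])
  (.mv 5 8 (.mv 0 2 (.pr [(1, 13), (7, 10)])
  (.mv 1 0 (.pr [(2, 11), (3, 6)])
  (.mv 2 0 (.pr [(3, 6), (1, 11), (7, 10)])
  (.mv 3 0 (.pr [(2, 6), (1, 11)])
  (.mv 6 0 (.pr [(2, 3), (1, 11), (7, 10)])
  (.mv 7 0 (.pr [(2, 3), (1, 11), (6, 10)])
  (.mv 9 0 (.pr [(2, 3), (1, 11), (6, 7)])
  (.mv 10 0 (.pr [(2, 3), (1, 11), (6, 7)])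
  (.mv 11 0 (.pr [(1, 2), (3, 6), (7, 10)])
  (.mv 13 0 (.pr [(2, 3), (1, 11), (6, 7)])
  .nil))))))))))
  (.mv 6 0 (.pr [(2, 3), (5, 8), (1, 11), (7, 10)])
  (.mv 7 0 (.pr [(5, 8), (2, 3), (1, 11), (6, 10)])
  (.mv 8 5 (.pr [(3, 6), (0, 2), (1, 11), (7, 10)])
  (.mv 9 0 (.pr [(5, 8), (2, 3), (1, 11), (6, 7)])
  (.mv 10 0 (.pr [(5, 8), (2, 3), (1, 11), (6, 7)])
  (.mv 11 0 (.pr [(5, 8), (1, 2), (3, 6), (7, 10)])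
  (.mv 13 0 (.pr [(5, 8), (2, 3), (1, 11), (6, 7)])
  .nil))))))))))))
  (.mv 5 8 (.mv 0 2 (.pr [(1, 13), (7, 10), (3, 4), (6, 9)])
  (.mv 1 2 (.pr [(0, 13), (11, 12), (3, 4), (6, 9)])
  (.mv 2 0 (.pr [(3, 6), (1, 11), (7, 10), (4, 12)])
  (.mv 3 2 (.pr [(6, 9), (1, 4), (0, 13), (11, 12)])
  (.mv 4 0 (.pr [(2, 6), (1, 11), (3, 12)])
  (.mv 6 2 (.pr [(3, 9), (1, 4), (0, 13), (11, 12)])
  (.mv 7 0 (.pr [(2, 6), (1, 11), (3, 9), (4, 12)])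
  (.mv 9 0 (.pr [(3, 6), (1, 2), (4, 12), (11, 13), (7, 10)])
  (.mv 10 0 (.pr [(2, 6), (1, 11), (3, 9), (4, 12)])
  (.mv 11 1 (.pr [(3, 6), (2, 7), (0, 10)])
  (.mv 12 1 (.pr [(3, 6), (0, 2), (7, 10)])
  (.mv 13 0 (.pr [(1, 11), (2, 3), (4, 12), (6, 9), (7, 10)])
  .nil))))))))))))
  (.mv 6 2 (.pr [(3, 9), (4, 8), (5, 13), (1, 12), (0, 7)])
  (.mv 7 0 (.pr [(4, 8), (5, 13), (1, 11), (3, 12), (2, 6)])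
  (.mv 8 4 (.pr [(5, 13), (0, 7), (2, 10), (3, 6), (1, 11)])
  (.mv 9 0 (.pr [(3, 6), (4, 8), (5, 13), (1, 12), (2, 11)])
  (.mv 10 0 (.pr [(4, 8), (5, 13), (1, 11), (3, 12), (2, 6)])
  (.mv 11 1 (.pr [(4, 8), (5, 13), (0, 7), (2, 10), (3, 6)])
  (.mv 12 1 (.pr [(4, 8), (5, 13), (0, 7), (2, 10), (3, 6)])
  (.mv 13 0 (.pr [(5, 8), (4, 12), (1, 11), (3, 6), (2, 7)])
  .nil))))))))))))))


theorem chk_C1 : chk NH certC1 7 Finset.univ (Finset.univ.erase 9) Finset.univ = true := by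
  decide +kernel

theorem c1 : C1 := SW_of_chk certC1 7 _ _ ⟨0, Finset.mem_univ _⟩ chk_C1

end Pool.Agent.H73.MB
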