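import Pool.Agent.Helper87.MB.Stm

/-!
# Certificates for wins of Dominator (Staller to move): trees of replies with pairing leaves
-/

set_option autoImplicit false

namespace Pool.Agent.H73.MB

open Pool.Agent.Helper87.MB

variable {V : Type} [DecidableEq V] {N : V → Finset V}

theorem DW_of_empty (k : ℕ) (F : Finset V) : DW N k F ∅ := by
  cases k with
  | zero => rfl
  | succ k => exact Or.inl rfl

/-- the pairing condition: the pairs are disjoint pairs of free vertices, and every undominated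
vertex is dominated by both vertices of some pair -/
def Pairing (N : V → Finset V) (ps : List (V × V)) (F U : Finset V) : Prop :=
  (ps.flatMap fun p => [p.1, p.2]).Nodup ∧ (∀ p ∈ ps, p.1 ∈ F ∧ p.2 ∈ F) ∧
    ∀ u ∈ U, ∃ p ∈ ps, u ∈ N p.1 ∧ u ∈ N p.2

instance (ps : List (V × V)) (F U : Finset V) : Decidable (Pairing N ps F U) := by
  unfold Pairing; infer_instance

theorem Pairing.perm {ps qs : List (V × V)} {F U : Finset V} (h : Pairing N ps F U)
    (hp : ps.Perm qs) : Pairing N qs F U := by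
  refine ⟨(List.Perm.nodup_iff (List.Perm.flatMap_right _ hp)).1 h.1, fun p hq => h.2.1 p (hp.mem_iff.2 hq),
    fun u hu => ?_⟩
  obtain ⟨p, hp', h1⟩ := h.2.2 u hu
  exact ⟨p, hp.mem_iff.1 hp', h1⟩

/-- the reply in the first pair -/
theorem Pairing.reply {a b : V} {qs : List (V × V)} {F U : Finset V}
    (h : Pairing N ((a, b) :: qs) F U) (x y : V) (hxy : (x = a ∧ y = b) ∨ (x = b ∧ y = a) ∨
      ((∀ p ∈ (a, b) :: qs, x ≠ p.1 ∧ x ≠ p.2) ∧ y = a)) :
    y ∈ F.erase x ∧ Pairing N qs ((F.erase x).erase y) (U \ N y) := by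
  obtain ⟨h1, h2, h3⟩ := h
  simp only [List.flatMap_cons, List.cons_append, List.nil_append, List.nodup_cons,
    List.mem_cons, List.mem_flatMap, not_or, not_exists, not_and] at h1
  obtain ⟨⟨hab, ha⟩, hb, hnd⟩ := h1
  obtain ⟨haF, hbF⟩ := h2 (a, b) (by simp)
  have hqa : ∀ p ∈ qs, p.1 ≠ a ∧ p.2 ≠ a := by
    intro p hp
    have := ha p hp
    exact ⟨fun h => this.1 h.symm, fun h => this.2.1 h.symm⟩
  have hqb : ∀ p ∈ qs, p.1 ≠ b ∧ p.2 ≠ b := by
    intro p hp
    have := hb p hp
    exact ⟨fun h => this.1 h.symm, fun h => this.2.1 h.symm⟩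
  have hy : y = a ∨ y = b := by tauto
  have hyN : ∀ u ∈ U \ N y, ∃ p ∈ qs, u ∈ N p.1 ∧ u ∈ N p.2 := by
    intro u hu
    rw [Finset.mem_sdiff] at hu
    obtain ⟨p, hp, hp1, hp2⟩ := h3 u hu.1
    rw [List.mem_cons] at hp
    rcases hp with rfl | hp
    · rcases hy with rfl | rfl
      · exact absurd hp1 hu.2
      · exact absurd hp2 hu.2
    · exact ⟨p, hp, hp1, hp2⟩
  have hxq : ∀ p ∈ qs, p.1 ≠ x ∧ p.2 ≠ x := by
    intro p hp
    rcases hxy with ⟨rfl, _⟩ | ⟨rfl, _⟩ | ⟨h, _⟩
    · exact hqa p hp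
    · exact hqb p hp
    · exact ⟨fun e => (h p (by simp [hp])).1 e.symm, fun e => (h p (by simp [hp])).2 e.symm⟩
  have hyq : ∀ p ∈ qs, p.1 ≠ y ∧ p.2 ≠ y := by
    intro p hp
    rcases hy with rfl | rfl
    · exact hqa p hp
    · exact hqb p hp
  have hyx : y ≠ x := by
    rcases hxy with ⟨rfl, rfl⟩ | ⟨rfl, rfl⟩ | ⟨h, rfl⟩
    · exact fun e => hab e.symm
    · exact hab
    · exact fun e => (h (y, b) (by simp)).1 e.symm
  refine ⟨Finset.mem_erase.2 ⟨hyx, ?_⟩, hnd, fun p hp => ?_, hyN⟩
  · rcases hy with rfl | rfl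
    · exact haF
    · exact hbF
  · have := h2 p (by simp [hp])
    exact ⟨Finset.mem_erase.2 ⟨(hyq p hp).1, Finset.mem_erase.2 ⟨(hxq p hp).1, this.1⟩⟩,
      Finset.mem_erase.2 ⟨(hyq p hp).2, Finset.mem_erase.2 ⟨(hxq p hp).2, this.2⟩⟩⟩

/-- pairing strategy -/
theorem Pairing.wins : ∀ (k : ℕ) (ps : List (V × V)) (F U : Finset V), Pairing N ps F U →
    ps.length ≤ k → SW N k F U := by
  intro k
  induction k with
  | zero =>
    intro ps F U h hk
    left
    obtain rfl : ps = [] := by
      cases ps with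
      | nil => rfl
      | cons a l => simp at hk
    rw [Finset.eq_empty_iff_forall_notMem]
    intro u hu
    obtain ⟨p, hp, _⟩ := h.2.2 u hu
    simp at hp
  | succ k ih =>
    intro ps F U h hk
    by_cases hU : U = ∅
    · exact Or.inl hU
    right
    cases ps with
    | nil =>
      exfalso
      apply hU
      rw [Finset.eq_empty_iff_forall_notMem]
      intro u hu
      obtain ⟨p, hp, _⟩ := h.2.2 u hu
      simp at hp
    | cons p0 qs0 =>
      refine ⟨⟨p0.1, (h.2.1 p0 (by simp)).1⟩, fun x hx => ?_⟩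
      rw [DW_succ]
      right
      by_cases hmem : ∃ p ∈ p0 :: qs0, x = p.1 ∨ x = p.2
      · obtain ⟨⟨a, b⟩, hp, hx1⟩ := hmem
        obtain ⟨l, hl⟩ : ∃ l, (p0 :: qs0).Perm ((a, b) :: l) :=
          ⟨(p0 :: qs0).erase (a, b), List.perm_cons_erase hp⟩
        have h' := h.perm hl
        have hlen : l.length ≤ k := by
          have := hl.length_eq
          simp at this
          simp at hk
          omega
        rcases hx1 with hx1 | hx1
        · simp only at hx1
          obtain ⟨h1, h2⟩ := h'.reply x b (Or.inl ⟨hx1, rfl⟩)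
          exact ⟨b, h1, ih l _ _ h2 hlen⟩
        · simp only at hx1
          obtain ⟨h1, h2⟩ := h'.reply x a (Or.inr (Or.inl ⟨hx1, rfl⟩))
          exact ⟨a, h1, ih l _ _ h2 hlen⟩
      · push Not at hmem
        obtain ⟨h1, h2⟩ := Pairing.reply (a := p0.1) (b := p0.2) (qs := qs0) h x p0.1
          (Or.inr (Or.inr ⟨hmem, rfl⟩))
        exact ⟨p0.1, h1, ih qs0 _ _ h2 (by simpa using hk)⟩

/-- certificates: the end of a list of replies; a reply `y` to `x`, with the certificate for the
position after it, and the other replies; a pairing -/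
inductive Cert (V : Type) : Type
  | nil : Cert V
  | mv (x y : V) (c t : Cert V) : Cert V
  | pr (ps : List (V × V)) : Cert V

/-- the check of a certificate; `W` is the set of the moves of Staller which are to be answered -/
def chk (N : V → Finset V) : Cert V → ℕ → Finset V → Finset V → Finset V → Bool
  | .nil, _, _, _, W => decide (W = ∅)
  | .mv _ _ _ _, 0, _, _, _ => false
  | .mv x y c t, k + 1, F, U, W =>
      decide (y ∈ F.erase x) && decide (((F.erase x).erase y).Nonempty ∨ U \ N y = ∅) &&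
        chk N c k ((F.erase x).erase y) (U \ N y) ((F.erase x).erase y) &&
        chk N t (k + 1) F U (W.erase x)
  | .pr ps, k, F, U, _ => decide (ps.length ≤ k) && decide (Pairing N ps F U)

theorem chk_sound : ∀ (c : Cert V) (k : ℕ) (F U W : Finset V), chk N c k F U W = true → W ⊆ F →
    ∀ x ∈ W, DW N k (F.erase x) U := by
  intro c
  induction c with
  | nil =>
    intro k F U W h _ x hx
    rw [chk, decide_eq_true_iff] at h
    rw [h] at hx
    simp at hx
  | pr ps =>
    intro k F U W h hW x hx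
    rw [chk, Bool.and_eq_true, decide_eq_true_iff, decide_eq_true_iff] at h
    rcases Pairing.wins k ps F U h.2 h.1 with hU | ⟨_, h1⟩
    · rw [hU]; exact DW_of_empty _ _
    · exact h1 x (hW hx)
  | mv a b c t ih1 ih2 =>
    intro k F U W h hW x hx
    cases k with
    | zero => simp [chk] at h
    | succ k =>
      rw [chk, Bool.and_eq_true, Bool.and_eq_true, Bool.and_eq_true, decide_eq_true_iff,
        decide_eq_true_iff] at h
      obtain ⟨⟨⟨h1, h2⟩, h3⟩, h4⟩ := h
      by_cases hxa : x = a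
      · subst hxa
        rw [DW_succ]
        right
        refine ⟨b, h1, ?_⟩
        by_cases hU : U \ N b = ∅
        · exact Or.inl hU
        · exact Or.inr ⟨h2.resolve_right hU, ih1 k _ _ _ h3 (Finset.Subset.refl _)⟩
      · exact ih2 (k + 1) F U (W.erase a) h4 ((Finset.erase_subset _ _).trans hW) x
          (Finset.mem_erase.2 ⟨hxa, hx⟩)

theorem SW_of_chk (c : Cert V) (k : ℕ) (F U : Finset V) (hF : F.Nonempty)
    (h : chk N c k F U F = true) : SW N k F U :=
  Or.inr ⟨hF, chk_sound c k F U F h (Finset.Subset.refl _)⟩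

end Pool.Agent.H73.MB
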